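import Pool.Agent.H8.WP.Targets
import Pool.Agent.H3.TW.BR
import Pool.Agent.H47.TW.S1
import Pool.Agent.H58.TW.FA
import Pool.Agent.H50.TW.SF

/-!
# The spectra for partial orders are spectra
-/

set_option autoImplicit false

namespace Pool.Agent.H86.WP

open Pool.Agent.H69.Sp Pool.Agent.H69.Mt Pool.Agent.H16.TO Pool.Agent.H8.PL Pool.Agent.H8.DI
  Pool.Agent.H8.WP Pool.Agent

/-- strict partial orders on `{0, …, n - 1}` -/
private def POn (n : ℕ) (r : ℕ → ℕ → Prop) : Prop :=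
  (∀ a < n, ¬ r a a) ∧ ∀ a < n, ∀ b < n, ∀ c < n, r a b → r b c → r a c

private theorem pon_iff {n : ℕ} (r : ℕ → ℕ → Prop) :
    po n (fun a b : Fin n => r a.val b.val) ↔ POn n r := by
  constructor
  · rintro ⟨h1, h2⟩
    exact ⟨fun a ha => h1 ⟨a, ha⟩, fun a ha b hb c hc => h2 ⟨a, ha⟩ ⟨b, hb⟩ ⟨c, hc⟩⟩
  · rintro ⟨h1, h2⟩
    exact ⟨fun a => h1 a.1 a.2, fun a b c => h2 a.1 a.2 b.1 b.2 c.1 c.2⟩

private theorem fd_pon (i : ℕ) : FD (fun N E _ => POn N (fun a b => E i [a, b])) := by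
  have tr : FD (fun N E v => ∀ a, a < N → ∀ b, b < N → ∀ c, c < N →
      (E i [a, b] → E i [b, c] → E i [a, c])) :=
    (FD.all 0 (FD.all 1 (FD.all 2 ((FD.par i [0, 1]).imp ((FD.par i [1, 2]).imp
      (FD.par i [0, 2])))))).congr fun N E v _ => by
        simp [Function.update_of_ne, Function.update_self]
  have h1 : FD (fun N E v => ∀ a, a < N → ¬ E i [a, a]) :=
    (FD.all 0 (FD.par i [0, 0]).not).congr fun N E v _ => by simp
  exact (h1.and tr).congr fun N E v _ => Iff.rfl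

private theorem br_p (φ : C2) (n : ℕ) : n ∈ specC po φ ↔ 0 < n ∧
    ∃ (P : ℕ → ℕ → Prop) (R : ℕ → ℕ → ℕ → Prop), POn n (R 0) ∧
      ∀ s : Bool → ℕ, (∀ w, s w < n) → φ.SatN n P R s := by
  refine and_congr_right fun hn => ?_
  constructor
  · rintro ⟨P, R, hR, hs⟩
    set P' : ℕ → ℕ → Prop := fun i a => ∃ h : a < n, P i ⟨a, h⟩ with hP'
    set R' : ℕ → ℕ → ℕ → Prop := fun i a b => ∃ (h : a < n) (h' : b < n), R i ⟨a, h⟩ ⟨b, h'⟩
      with hR'
    have e1 : P = fun i (a : Fin n) => P' i a.val := by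
      funext i a
      simp only [hP', eq_iff_iff]
      exact ⟨fun h => ⟨a.2, h⟩, fun ⟨_, h⟩ => h⟩
    have e2 : R = fun i (a b : Fin n) => R' i a.val b.val := by
      funext i a b
      simp only [hR', eq_iff_iff]
      exact ⟨fun h => ⟨a.2, b.2, h⟩, fun ⟨_, _, h⟩ => h⟩
    refine ⟨P', R', ?_, ?_⟩
    · rw [← pon_iff]
      rw [e2] at hR
      exact hR
    · intro s hw
      have h1 := hs (fun w => ⟨s w, hw w⟩)
      rw [e1, e2] at h1
      exact (H3.TW.br_sat P' R' φ _).mp h1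
  · rintro ⟨P, R, hR, hs⟩
    refine ⟨fun i a => P i a.val, fun i a b => R i a.val b.val, ?_, ?_⟩
    · exact (pon_iff (R 0)).mpr hR
    · intro s
      exact (H3.TW.br_sat P R φ s).mpr (hs _ fun w => (s w).2)

/-- the spectra for partial orders are spectra -/
theorem pf_sp : W_SP := by
  intro φ
  have h2 := ed_isSpectrum ((fd_pon (2 * 0 + 1)).and
    (H47.TW.fd_cl (H50.TW.pf_sf H50.TW.pf_cq) φ)).ed
  convert h2 using 1
  ext n
  rw [br_p]
  refine and_congr_right fun _ => ?_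
  constructor
  · rintro ⟨P, R, hR, hs⟩
    have key1 : ∀ i a, (if (2 * i) % 2 = 0 then ∃ c, [a] = [c] ∧ P ((2 * i) / 2) c
        else ∃ c d, [a] = [c, d] ∧ R ((2 * i) / 2) c d) ↔ P i a := by
      intro i a
      rw [if_pos (by omega), Nat.mul_div_cancel_left i (by norm_num)]
      simp
    have key2 : ∀ i a b, (if (2 * i + 1) % 2 = 0 then ∃ c, [a, b] = [c] ∧ P ((2 * i + 1) / 2) c
        else ∃ c d, [a, b] = [c, d] ∧ R ((2 * i + 1) / 2) c d) ↔ R i a b := by
      intro i a b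
      rw [if_neg (by omega), show (2 * i + 1) / 2 = i by omega]
      simp
    refine ⟨fun k l => if k % 2 = 0 then ∃ c, l = [c] ∧ P (k / 2) c
        else ∃ c d, l = [c, d] ∧ R (k / 2) c d, ?_, ?_⟩
    · simp only [key2]
      exact hR
    · simp only [key1, key2]
      exact hs
  · rintro ⟨E, hj, hs⟩
    exact ⟨fun i a => E (2 * i) [a], fun i a b => E (2 * i + 1) [a, b], hj, hs⟩

end Pool.Agent.H86.WP
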